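import Pool.Agent.Helper39.NC.RadCalc

/-!
# The Riccati certificate in the rotationally symmetric part of the tube (`RadNat`, `RadHyp`)
-/

set_option maxSynthPendingDepth 3

namespace Pool.Agent.Helper79.NC.Rad39

open scoped ContDiff Topology
open Set Filter Complex RadAlg

theorem dot_smul_left (μ : ℝ) (a b : ℂ) : dot (μ • a) b = μ * dot a b := by
  simp only [dot, Complex.real_smul, Complex.mul_re, Complex.mul_im, Complex.ofReal_re,
    Complex.ofReal_im]
  ring

theorem dot_smul_right (μ : ℝ) (a b : ℂ) : dot a (μ • b) = μ * dot a b := by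
  rw [dot_comm, dot_smul_left, dot_comm]

theorem dot_add_right (a b c : ℂ) : dot a (b + c) = dot a b + dot a c := by
  simp only [dot, Complex.add_re, Complex.add_im]; ring

/-- The derivative of the certificate. -/
theorem hasDerivAt_dn (T : TubeData) {c J : ℝ → E3} (hc : ContDiff ℝ ∞ c) (hJ : ContDiff ℝ ∞ J)
    {t : ℝ} (h0 : T.u0 < normSq (c t).1) {μ ν : ℝ}
    (hμ : (deriv (deriv c) t).1 = μ • (c t).1)
    (hν : (deriv (deriv J) t).1 = μ • (J t).1 + ν • (c t).1) (δ : ℝ) :
    HasDerivAt (fun t => dot (J t).1 (deriv J t).1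
        - T.S (normSq (c t).1) * dot (c t).1 (J t).1
            * (dot (deriv c t).1 (J t).1 + dot (c t).1 (deriv J t).1)
        - deriv T.S (normSq (c t).1) * dot (c t).1 (deriv c t).1 * dot (c t).1 (J t).1 ^ 2
        + (J t).2 * δ)
      (dnat (normSq (c t).1) (dot (c t).1 (deriv c t).1) (crs (c t).1 (deriv c t).1)
        (dot (c t).1 (J t).1) (crs (c t).1 (J t).1) (dot (c t).1 (deriv J t).1)
        (crs (c t).1 (deriv J t).1) (T.S (normSq (c t).1)) (deriv T.S (normSq (c t).1))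
        (deriv (deriv T.S) (normSq (c t).1)) μ ν (deriv J t).2 δ) t := by
  have hne : normSq (c t).1 ≠ 0 := (T.u0_pos.trans h0).ne'
  have hcd : HasDerivAt c (deriv c t) t := (hc.differentiable (by simp) t).hasDerivAt
  have hJd : HasDerivAt J (deriv J t) t := (hJ.differentiable (by simp) t).hasDerivAt
  have hc' : ContDiff ℝ ∞ (deriv c) := hc.iterate_deriv 1
  have hJ' : ContDiff ℝ ∞ (deriv J) := hJ.iterate_deriv 1
  have hvd : HasDerivAt (deriv c) (deriv (deriv c) t) t :=
    (hc'.differentiable (by simp) t).hasDerivAt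
  have hZd : HasDerivAt (deriv J) (deriv (deriv J) t) t :=
    (hJ'.differentiable (by simp) t).hasDerivAt
  have hw := hasDerivAt_fst hcd
  have hY := hasDerivAt_fst hJd
  have hv := hasDerivAt_fst hvd
  have hZ := hasDerivAt_fst hZd
  have hq := hasDerivAt_snd hJd
  have hn := hasDerivAt_normSq hw
  have hSd : HasDerivAt T.S (deriv T.S (normSq (c t).1)) (normSq (c t).1) :=
    ((T.hS.contDiffAt (Ioi_mem_nhds h0)).differentiableAt (by simp)).hasDerivAt
  have hS' := T.hS.deriv_of_isOpen isOpen_Ioi (m := ∞) (by simp)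
  have hSd' : HasDerivAt (deriv T.S) (deriv (deriv T.S) (normSq (c t).1)) (normSq (c t).1) :=
    ((hS'.contDiffAt (Ioi_mem_nhds h0)).differentiableAt (by simp)).hasDerivAt
  have hSu : HasDerivAt (fun s => T.S (normSq (c s).1)) _ t :=
    HasDerivAt.comp (h := fun s => normSq (c s).1) t hSd hn
  have hSu' : HasDerivAt (fun s => deriv T.S (normSq (c s).1)) _ t :=
    HasDerivAt.comp (h := fun s => normSq (c s).1) t hSd' hn
  have hy := hasDerivAt_dot hw hY
  have hm := hasDerivAt_dot hw hv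
  have hy1 := (hasDerivAt_dot hv hY).add (hasDerivAt_dot hw hZ)
  have hYZ := hasDerivAt_dot hY hZ
  have h := ((hYZ.sub ((hSu.mul hy).mul hy1)).sub ((hSu'.mul hm).mul (hy.pow 2))).add
    (hq.mul_const δ)
  refine HasDerivAt.congr_deriv h ?_
  simp only [Pi.pow_apply, Pi.mul_apply, Pi.add_apply, Nat.cast_ofNat, Nat.add_one_sub_one, pow_one]
  rw [hμ, hν]
  simp only [dot_smul_left, dot_smul_right, dot_add_right]
  rw [dot_eq hne (deriv J t).1 (deriv J t).1, dot_eq hne (deriv c t).1 (J t).1,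
    dot_eq hne (deriv c t).1 (deriv J t).1, dot_eq hne (deriv c t).1 (deriv c t).1,
    dot_eq hne (J t).1 (J t).1, dot_comm (J t).1 (c t).1, dot_self (c t).1]
  unfold dnat
  ring

theorem k_pos (T : TubeData) {w : ℂ} (h0 : T.u0 < normSq w) :
    0 < 1 - T.S (normSq w) * normSq w := by
  have := T.σ_lt w
  rw [T.σ_eq w h0] at this
  linarith

theorem hasDerivAt_ss (x : ℝ) : HasDerivAt ss (ss' x) x := by
  -- the polynomial
  have hpoly : ∀ y : ℝ, HasDerivAt (fun x : ℝ => (1 - x) ^ 2 * (1 + 2 * x)) (-(6 * y * (1 - y))) y := by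
    intro y
    have h1 : HasDerivAt (fun x : ℝ => 1 - x) (-1) y := by
      simpa using (hasDerivAt_id y).const_sub 1
    have h2 : HasDerivAt (fun x : ℝ => 1 + 2 * x) 2 y := by
      simpa using ((hasDerivAt_id y).const_mul 2).const_add 1
    refine ((h1.pow 2).mul h2).congr_deriv ?_
    simp only [Pi.pow_apply, Nat.cast_ofNat, Nat.add_one_sub_one, pow_one]
    ring
  rcases lt_trichotomy x 0 with hx | hx | hx
  · have : ss' x = 0 := by unfold ss'; rw [if_pos hx.le]
    rw [this]
    refine (hasDerivAt_const x (1 : ℝ)).congr_of_eventuallyEq ?_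
    filter_upwards [Iio_mem_nhds hx] with y hy
    exact ss_of_nonpos (le_of_lt hy)
  · subst hx
    have h0 : ss' 0 = 0 := by unfold ss'; rw [if_pos (le_refl _)]
    rw [h0, ← hasDerivWithinAt_univ, ← Iic_union_Ici (a := (0 : ℝ))]
    apply HasDerivWithinAt.union
    · refine (hasDerivWithinAt_const (0 : ℝ) (Iic 0) (1 : ℝ)).congr ?_ ?_
      · intro y hy; exact ss_of_nonpos hy
      · exact ss_of_nonpos (le_refl _)
    · have h1 := (hpoly 0).hasDerivWithinAt (s := Ici 0)
      simp only [mul_zero, zero_mul, neg_zero] at h1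
      refine h1.congr_of_eventuallyEq ?_ ?_
      · have h2 : Iio (1 : ℝ) ∈ 𝓝[Ici 0] (0 : ℝ) := mem_nhdsWithin_of_mem_nhds (Iio_mem_nhds one_pos)
        filter_upwards [h2, self_mem_nhdsWithin] with y hy1 hy2
        unfold ss
        split_ifs with h3 h4
        · have : y = 0 := le_antisymm h3 hy2
          subst this; norm_num
        · exact absurd h4 (not_le.2 hy1)
        · rfl
      · rw [ss_of_nonpos (le_refl _)]; norm_num
  · rcases lt_trichotomy x 1 with hx1 | hx1 | hx1
    · have : ss' x = -(6 * x * (1 - x)) := by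
        unfold ss'; rw [if_neg (not_le.2 hx), if_neg (not_le.2 hx1)]
      rw [this]
      refine (hpoly x).congr_of_eventuallyEq ?_
      filter_upwards [Ioo_mem_nhds hx hx1] with y hy
      unfold ss
      rw [if_neg (not_le.2 hy.1), if_neg (not_le.2 hy.2)]
    · subst hx1
      have h0 : ss' 1 = 0 := by unfold ss'; rw [if_neg (not_le.2 one_pos), if_pos (le_refl _)]
      rw [h0, ← hasDerivWithinAt_univ, ← Iic_union_Ici (a := (1 : ℝ))]
      apply HasDerivWithinAt.union
      · have h1 := (hpoly 1).hasDerivWithinAt (s := Iic 1)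
        simp only [sub_self, mul_zero, neg_zero] at h1
        refine h1.congr_of_eventuallyEq ?_ ?_
        · have h2 : Ioi (0 : ℝ) ∈ 𝓝[Iic 1] (1 : ℝ) :=
            mem_nhdsWithin_of_mem_nhds (Ioi_mem_nhds one_pos)
          filter_upwards [h2, self_mem_nhdsWithin] with y hy1 hy2
          unfold ss
          split_ifs with h3 h4
          · exact absurd h3 (not_le.2 hy1)
          · have : y = 1 := le_antisymm hy2 h4
            subst this; norm_num
          · rfl
        · rw [ss_of_one_le (le_refl _)]; norm_num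
      · refine (hasDerivWithinAt_const (1 : ℝ) (Ici 1) (0 : ℝ)).congr ?_ ?_
        · intro y hy; exact ss_of_one_le hy
        · exact ss_of_one_le (le_refl _)
    · have : ss' x = 0 := by
        unfold ss'; rw [if_neg (not_le.2 hx), if_pos hx1.le]
      rw [this]
      refine (hasDerivAt_const x (0 : ℝ)).congr_of_eventuallyEq ?_
      filter_upwards [Ioi_mem_nhds hx1] with y hy
      exact ss_of_one_le (le_of_lt hy)

/-- The derivative of the gauge function. -/
noncomputable def gauge' (u : ℝ) : ℝ :=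
  ss' ((√u - 1 / 1000) * (250 / 31)) * (1 / (2 * √u) * (250 / 31))

theorem hasDerivAt_gauge {u : ℝ} (hu : 0 < u) : HasDerivAt gauge (gauge' u) u := by
  have h1 : HasDerivAt (fun u : ℝ => (√u - 1 / 1000) * (250 / 31)) (1 / (2 * √u) * (250 / 31)) u :=
    ((Real.hasDerivAt_sqrt hu.ne').sub_const _).mul_const _
  exact HasDerivAt.comp (h := fun u : ℝ => (√u - 1 / 1000) * (250 / 31)) u
    (hasDerivAt_ss ((√u - 1 / 1000) * (250 / 31))) h1

theorem gauge'_nonpos {u : ℝ} (hu : 0 < u) : gauge' u ≤ 0 := by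
  have h1 : 0 < 1 / (2 * √u) * (250 / 31) := by
    have := Real.sqrt_pos.2 hu
    positivity
  have h2 : ss' ((√u - 1 / 1000) * (250 / 31)) ≤ 0 := by
    unfold ss'
    split_ifs with h3 h4
    · exact le_refl _
    · exact le_refl _
    · push Not at h3 h4
      have : 0 ≤ 6 * ((√u - 1 / 1000) * (250 / 31)) * (1 - (√u - 1 / 1000) * (250 / 31)) := by
        apply mul_nonneg
        · linarith
        · linarith
      linarith
  unfold gauge'
  exact mul_nonpos_of_nonpos_of_nonneg h2 h1.le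

theorem gauge_bound {u : ℝ} (hu : 0 < u) :
    3 * gauge u * u / (1 + u) - 2 * u * gauge' u ≤ 1 := by
  have hr : 0 < √u := Real.sqrt_pos.2 hu
  have hru : √u * √u = u := Real.mul_self_sqrt hu.le
  have h1 : 3 * gauge u * u / (1 + u) ≤ 3 * gauge u * u := by
    apply div_le_self _ (by linarith)
    have := gauge_nonneg u
    positivity
  have h2 : - (2 * u * gauge' u) = √u * (-ss' ((√u - 1 / 1000) * (250 / 31))) * (250 / 31) := by
    unfold gauge'
    have : 2 * u * (ss' ((√u - 1 / 1000) * (250 / 31)) * (1 / (2 * √u) * (250 / 31)))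
        = (u / √u) * ss' ((√u - 1 / 1000) * (250 / 31)) * (250 / 31) := by
      field_simp
    rw [this]
    have h3 : u / √u = √u := by rw [div_eq_iff hr.ne', hru]
    rw [h3]; ring
  set X := (√u - 1 / 1000) * (250 / 31) with hX
  have hrX : √u = 1 / 1000 + X * (31 / 250) := by rw [hX]; ring
  rcases le_or_gt X 0 with h0 | h0
  · have e1 : ss' X = 0 := by unfold ss'; rw [if_pos h0]
    have e2 : u ≤ 1 / 1000000 := by
      have : √u ≤ 1 / 1000 := by rw [hrX]; linarith
      nlinarith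
    have e3 := gauge_le_one u
    have e4 := gauge_nonneg u
    rw [e1] at h2
    nlinarith
  · rcases le_or_gt 1 X with h1' | h1'
    · have e1 : ss' X = 0 := by unfold ss'; rw [if_neg (not_le.2 h0), if_pos h1']
      have e2 : gauge u = 0 := by unfold gauge; rw [← hX]; exact ss_of_one_le h1'
      rw [e1] at h2
      rw [e2] at h1 ⊢
      linarith
    · have e1 : ss' X = -(6 * X * (1 - X)) := by
        unfold ss'; rw [if_neg (not_le.2 h0), if_neg (not_le.2 h1')]
      have e3 := gauge_le_one u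
      have e5 := cut_bound X (√u) h0.le h1'.le hrX
      rw [e1] at h2
      have e6 : (√u) ^ 2 = u := Real.sq_sqrt hu.le
      rw [e6] at e5
      have e7 : 3 * gauge u * u ≤ 3 * u := by nlinarith
      linarith

/-! ### The hyperbolic values -/

theorem P_hyp (T : TubeData) {u : ℝ} (hu : T.u3 ≤ u) : T.P u = (T.κ - 1 / (1 + u)) / 2 := by
  have h0 : 0 ≤ u := by linarith [T.u0_pos, T.u01, T.u12, T.u22, T.u23]
  have hn : normSq ((√u : ℝ) : ℂ) = u := by
    rw [normSq_ofReal, Real.mul_self_sqrt h0]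
  have h1 := T.hyp1 ((√u : ℝ) : ℂ) (by rw [hn]; exact hu)
  have h2 := T.Φ_eq ((√u : ℝ) : ℂ) (by rw [hn]; linarith [T.u01, T.u12, T.u22, T.u23])
  rw [hn] at h1 h2
  rw [h2] at h1
  linarith

theorem S_hyp (T : TubeData) {u : ℝ} (hu : T.u3 ≤ u) : T.S u = 1 / (1 + u) := by
  have h0 : 0 ≤ u := by linarith [T.u0_pos, T.u01, T.u12, T.u22, T.u23]
  have hn : normSq ((√u : ℝ) : ℂ) = u := by
    rw [normSq_ofReal, Real.mul_self_sqrt h0]
  have h1 := T.hyp2 ((√u : ℝ) : ℂ) (by rw [hn]; exact hu)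
  have h2 := T.σ_eq ((√u : ℝ) : ℂ) (by rw [hn]; linarith [T.u01, T.u12, T.u22, T.u23])
  rw [hn] at h1 h2
  rw [h2] at h1
  exact h1

theorem u3_pos (T : TubeData) : 0 < T.u3 := by
  linarith [T.u0_pos, T.u01, T.u12, T.u22, T.u23]

theorem S1_hyp (T : TubeData) {u : ℝ} (hu : T.u3 < u) : deriv T.S u = -(1 / (1 + u) ^ 2) := by
  have h0 : 0 < u := (u3_pos T).trans hu
  have h1 : HasDerivAt (fun x : ℝ => 1 / (1 + x)) (-(1 / (1 + u) ^ 2)) u := by
    have h2 : HasDerivAt (fun x : ℝ => 1 + x) 1 u := by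
      simpa using (hasDerivAt_id u).const_add 1
    have h3 := h2.inv (by positivity)
    refine (h3.congr_of_eventuallyEq (Eventually.of_forall fun x => ?_)).congr_deriv ?_
    · simp
    · ring
  have h4 : T.S =ᶠ[𝓝 u] fun x : ℝ => 1 / (1 + x) := by
    filter_upwards [Ioi_mem_nhds hu] with x hx
    exact S_hyp T (le_of_lt hx)
  exact (h1.congr_of_eventuallyEq h4).deriv

theorem P1_hyp (T : TubeData) {u : ℝ} (hu : T.u3 < u) : deriv T.P u = 1 / (2 * (1 + u) ^ 2) := by
  have h0 : 0 < u := (u3_pos T).trans hu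
  have h1 : HasDerivAt (fun x : ℝ => (T.κ - 1 / (1 + x)) / 2) (1 / (2 * (1 + u) ^ 2)) u := by
    have h2 : HasDerivAt (fun x : ℝ => 1 + x) 1 u := by
      simpa using (hasDerivAt_id u).const_add 1
    have h3 := ((h2.inv (by positivity)).const_sub T.κ).div_const 2
    refine (h3.congr_of_eventuallyEq (Eventually.of_forall fun x => ?_)).congr_deriv ?_
    · simp
    · field_simp
  have h4 : T.P =ᶠ[𝓝 u] fun x : ℝ => (T.κ - 1 / (1 + x)) / 2 := by
    filter_upwards [Ioi_mem_nhds hu] with x hx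
    exact P_hyp T (le_of_lt hx)
  exact (h1.congr_of_eventuallyEq h4).deriv

theorem P2_hyp (T : TubeData) {u : ℝ} (hu : T.u3 < u) :
    deriv (deriv T.P) u = -(1 / (1 + u) ^ 3) := by
  have h0 : 0 < u := (u3_pos T).trans hu
  have h1 : HasDerivAt (fun x : ℝ => 1 / (2 * (1 + x) ^ 2)) (-(1 / (1 + u) ^ 3)) u := by
    have h2 : HasDerivAt (fun x : ℝ => 1 + x) 1 u := by
      simpa using (hasDerivAt_id u).const_add 1
    have h3 := ((h2.pow 2).const_mul 2).inv (by simp only [Pi.pow_apply]; positivity)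
    refine (h3.congr_of_eventuallyEq (Eventually.of_forall fun x => ?_)).congr_deriv ?_
    · simp
    · simp only [Pi.pow_apply, Nat.cast_ofNat, Nat.add_one_sub_one, pow_one]
      field_simp
  have h4 : deriv T.P =ᶠ[𝓝 u] fun x : ℝ => 1 / (2 * (1 + x) ^ 2) := by
    filter_upwards [Ioi_mem_nhds hu] with x hx
    exact P1_hyp T hx
  exact (h1.congr_of_eventuallyEq h4).deriv

theorem F_hyp (T : TubeData) {w : ℂ} (hu : T.u3 ≤ normSq w) : T.F w = 1 + normSq w := by
  unfold TubeData.F
  rw [T.hyp1 w hu]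
  simp

end Pool.Agent.Helper79.NC.Rad39

namespace Pool.Agent.Helper79.NC

open scoped ContDiff Topology
open Set Filter Complex RadAlg Rad39

/-- Module M5a. -/
theorem radNat : RadNat := by
  intro T c J t₀ hc hJ hEq hu1 hu2
  refine ⟨?_, corr_bound T hc hu1⟩
  have h0 : T.u0 < normSq (c t₀).1 := by linarith [T.u01, T.u12]
  have hu : 0 < normSq (c t₀).1 := T.u0_pos.trans h0
  obtain ⟨C, δ, hev⟩ := hEq
  have hn : Continuous (fun t => normSq (c t).1) :=
    continuous_normSq.comp (continuous_fst.comp hc.continuous)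
  have hev1 : ∀ᶠ t in 𝓝 t₀, T.u2 < normSq (c t).1 := hn.continuousAt.eventually_const_lt hu1
  have hev2 : ∀ᶠ t in 𝓝 t₀, normSq (c t).1 < 1 / 1000000 :=
    hn.continuousAt.eventually_lt_const hu2
  obtain ⟨e1, e2, μ, ν, e3, e4, e5, e6⟩ := hev.self_of_nhds
  have hD := hasDerivAt_dn T hc hJ h0 e3 e4 δ
  have hDev : (fun t => 1 / 2 * deriv (fun τ => tubeMetric T.F T.σ (c τ) (J τ) (J τ)) t
        - corr T (c t) (deriv c t) (J t)) =ᶠ[𝓝 t₀] (fun t => dot (J t).1 (deriv J t).1
        - T.S (normSq (c t).1) * dot (c t).1 (J t).1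
            * (dot (deriv c t).1 (J t).1 + dot (c t).1 (deriv J t).1)
        - deriv T.S (normSq (c t).1) * dot (c t).1 (deriv c t).1 * dot (c t).1 (J t).1 ^ 2
        + (J t).2 * δ) := by
    filter_upwards [hev, hev1, hev2] with t ht1 ht2 ht3
    obtain ⟨f1, f2, -⟩ := ht1
    have hg : gauge (normSq (c t).1) = 1 := by
      unfold gauge
      apply ss_of_nonpos
      have : √(normSq (c t).1) ≤ 1 / 1000 := by
        rw [Real.sqrt_le_left (by norm_num)]
        norm_num at ht3 ⊢
        linarith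
      linarith
    rw [cert_form T hc hJ ht2, hg, f2]
    ring
  refine ⟨_, ?_, hD.congr_of_eventuallyEq hDev⟩
  have hk := k_pos T h0
  have hF := F_pos T (c t₀).1
  have hne : normSq (c t₀).1 ≠ 0 := hu.ne'
  rw [fderiv_F_radial T h0] at e2
  rw [← dot_self (deriv c t₀).1] at e5 e6
  rw [dot_eq hne (deriv c t₀).1 (deriv c t₀).1] at e5 e6
  rw [dot_eq hne (deriv c t₀).1 (J t₀).1, dot_eq hne (deriv c t₀).1 (deriv J t₀).1] at e6
  rw [dnat_eq (P1 := deriv T.P (normSq (c t₀).1)) (P2 := deriv (deriv T.P) (normSq (c t₀).1))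
    (C := C) (F := T.F (c t₀).1) (th := (deriv c t₀).2) (hF := hF)]
  · apply add_nonneg
    · apply nat_nonneg _ _ _ _ _ _ _ _ _ (deriv T.P (normSq (c t₀).1)) _ _ _ hu hk
      · rw [e5]; ring
      · exact T.nat1 _ hu1.le hu2.le
      · exact T.nat2 _ hu1.le hu2.le
      · exact T.nat3 _ hu1.le hu2.le
    · positivity
  · linear_combination e6
  · linear_combination e2
  · exact e1

/-- Module M5b. -/
theorem radHyp : RadHyp := by
  intro T c J t₀ hc hJ hEq hu1 hort
  have hu1' : T.u2 < normSq (c t₀).1 := by linarith [T.u22, T.u23]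
  refine ⟨?_, corr_bound T hc hu1'⟩
  have h0 : T.u0 < normSq (c t₀).1 := by linarith [T.u01, T.u12]
  have hu : 0 < normSq (c t₀).1 := T.u0_pos.trans h0
  have hne : normSq (c t₀).1 ≠ 0 := hu.ne'
  obtain ⟨C, δ, hev⟩ := hEq
  have hn : Continuous (fun t => normSq (c t).1) :=
    continuous_normSq.comp (continuous_fst.comp hc.continuous)
  have hev1 : ∀ᶠ t in 𝓝 t₀, T.u3 < normSq (c t).1 := hn.continuousAt.eventually_const_lt hu1
  obtain ⟨e1, e2, μ, ν, e3, e4, e5, e6⟩ := hev.self_of_nhds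
  have hD := hasDerivAt_dn T hc hJ h0 e3 e4 δ
  have hcd : HasDerivAt c (deriv c t₀) t₀ := (hc.differentiable (by simp) t₀).hasDerivAt
  have hJd : HasDerivAt J (deriv J t₀) t₀ := (hJ.differentiable (by simp) t₀).hasDerivAt
  have hc' : ContDiff ℝ ∞ (deriv c) := hc.iterate_deriv 1
  have hvd : HasDerivAt (deriv c) (deriv (deriv c) t₀) t₀ :=
    (hc'.differentiable (by simp) t₀).hasDerivAt
  have hw := hasDerivAt_fst hcd
  have hY := hasDerivAt_fst hJd
  have hv := hasDerivAt_fst hvd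
  have hq := hasDerivAt_snd hJd
  have hth := hasDerivAt_snd hvd
  have hnd := hasDerivAt_normSq hw
  have hy := hasDerivAt_dot hw hY
  have hm := hasDerivAt_dot hw hv
  have hg : HasDerivAt (fun t => gauge (normSq (c t).1)) _ t₀ :=
    HasDerivAt.comp (h := fun s => normSq (c s).1) t₀ (hasDerivAt_gauge hu) hnd
  have hW := (hm.mul (hq.pow 2)).sub (((hy.const_mul 2).mul hth).mul hq)
  have hDW := hD.add ((hg.const_sub 1).mul hW)
  have hDev : (fun t => 1 / 2 * deriv (fun τ => tubeMetric T.F T.σ (c τ) (J τ) (J τ)) t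
        - corr T (c t) (deriv c t) (J t)) =ᶠ[𝓝 t₀] (fun t => (dot (J t).1 (deriv J t).1
        - T.S (normSq (c t).1) * dot (c t).1 (J t).1
            * (dot (deriv c t).1 (J t).1 + dot (c t).1 (deriv J t).1)
        - deriv T.S (normSq (c t).1) * dot (c t).1 (deriv c t).1 * dot (c t).1 (J t).1 ^ 2
        + (J t).2 * δ) + (1 - gauge (normSq (c t).1)) *
          (dot (c t).1 (deriv c t).1 * (J t).2 ^ 2
            - 2 * dot (c t).1 (J t).1 * (deriv c t).2 * (J t).2)) := by
    filter_upwards [hev, hev1] with t ht1 ht2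
    obtain ⟨f1, f2, -⟩ := ht1
    have ht2' : T.u2 < normSq (c t).1 := by linarith [T.u22, T.u23]
    have hpos : 0 < normSq (c t).1 := (u3_pos T).trans ht2
    have h1 : 2 * deriv T.P (normSq (c t).1) * T.F (c t).1 ^ 2 = 1 := by
      rw [P1_hyp T ht2, F_hyp T ht2.le]
      field_simp
    rw [cert_form T hc hJ ht2', h1, f2]
    ring
  -- the derivative of the angular velocity
  have hth' : (deriv (deriv c) t₀).2 = -(2 * dot (c t₀).1 (deriv c t₀).1 * (deriv c t₀).2
      / (1 + normSq (c t₀).1)) := by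
    have h1 : HasDerivAt (fun t => (1 + normSq (c t).1) * (deriv c t).2)
        ((2 * dot (c t₀).1 (deriv c t₀).1) * (deriv c t₀).2
          + (1 + normSq (c t₀).1) * (deriv (deriv c) t₀).2) t₀ := (hnd.const_add 1).mul hth
    have h2 : (fun t => (1 + normSq (c t).1) * (deriv c t).2) =ᶠ[𝓝 t₀] fun _ => C := by
      filter_upwards [hev, hev1] with t ht1 ht2
      obtain ⟨f1, -⟩ := ht1
      rw [F_hyp T ht2.le] at f1
      exact f1
    have h3 := h1.unique ((hasDerivAt_const t₀ C).congr_of_eventuallyEq h2)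
    have h4 : (1 + normSq (c t₀).1) ≠ 0 := by positivity
    rw [← neg_div, eq_div_iff h4]
    linarith
  refine ⟨_, ?_, hDW.congr_of_eventuallyEq hDev⟩
  -- the value of the derivative
  rw [fderiv_F_radial T h0, P1_hyp T hu1, F_hyp T hu1.le] at e2
  rw [F_hyp T hu1.le] at e1
  rw [← dot_self (deriv c t₀).1, S_hyp T hu1.le, S1_hyp T hu1, P1_hyp T hu1,
    dot_eq hne (deriv c t₀).1 (deriv c t₀).1] at e5
  rw [← dot_self (deriv c t₀).1, S_hyp T hu1.le, S1_hyp T hu1, P1_hyp T hu1, P2_hyp T hu1,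
    dot_eq hne (deriv c t₀).1 (deriv c t₀).1, dot_eq hne (deriv c t₀).1 (J t₀).1,
    dot_eq hne (deriv c t₀).1 (deriv J t₀).1] at e6
  have hmu := hyp_mu _ _ _ _ _ _ hu e1 e5
  have hdn := hyp_dnat _ _ _ _ _ _ _ _ _ _ _ _ _ _ hu e1 e2 e5 e6
  rw [S_hyp T hu1.le, S1_hyp T hu1, hdn]
  have hort0 := hort.self_of_nhds
  rw [tubeMetric_apply, F_hyp T hu1.le, T.σ_eq _ h0, S_hyp T hu1.le,
    dot_comm (J t₀).1, dot_eq hne (deriv c t₀).1 (J t₀).1] at hort0
  have hmain := hyp_nonneg (normSq (c t₀).1) (dot (c t₀).1 (deriv c t₀).1)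
    (crs (c t₀).1 (deriv c t₀).1) (dot (c t₀).1 (J t₀).1) (crs (c t₀).1 (J t₀).1)
    (dot (c t₀).1 (deriv J t₀).1) (crs (c t₀).1 (deriv J t₀).1) (J t₀).2 (deriv J t₀).2
    (deriv c t₀).2 (gauge (normSq (c t₀).1)) (gauge' (normSq (c t₀).1)) hu (gauge_nonneg _)
    (gauge_le_one _) (gauge'_nonpos hu) (gauge_bound hu) (by rw [← hort0]; ring)
  refine hmain.trans_eq ?_
  simp only [Pi.pow_apply, Pi.mul_apply, Pi.sub_apply, Nat.cast_ofNat, Nat.add_one_sub_one, pow_one]
  rw [hth', e3, dot_smul_right, dot_self (c t₀).1, dot_eq hne (deriv c t₀).1 (deriv c t₀).1,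
    dot_eq hne (deriv c t₀).1 (J t₀).1, hmu]
  unfold RadAlg.hW
  ring

end Pool.Agent.Helper79.NC
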