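import Mathlib

/-!
# Algebra of the Riccati certificate in the rotationally symmetric part of the tube
-/

namespace Pool.Agent.Helper79.NC.RadAlg

/-- The derivative of the natural certificate. -/
theorem nat_id (u m l y x a b S S1 P1 P2 C μ : ℝ) (hu : 0 < u) (hk : 0 < 1 - S * u)
    (hμ : μ * (1 - S * u) = S1 * m ^ 2 + S * ((m ^ 2 + l ^ 2) / u) + 2 * P1 * C ^ 2) :
    (a ^ 2 + b ^ 2) / u + μ * ((y ^ 2 + x ^ 2) / u) + μ * S1 * u * y ^ 2
      - 2 * S1 * m * y * ((m * y + l * x) / u + a) + S1 * y ^ 2 * ((m ^ 2 + l ^ 2) / u)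
      - S * ((m * y + l * x) / u + a) ^ 2 + 4 * P2 * C ^ 2 * y ^ 2
    = ((1 - S * u) * a - S * l * x - m * (u * S1 + S) * y) ^ 2 / ((1 - S * u) * u) + b ^ 2 / u
      + (S + u * S1) / (1 - S * u) * ((m * x - l * y) / u) ^ 2
      + C ^ 2 * ((2 * (P1 + 2 * u * P2) + 2 * u * P1 * (S + u * S1) / (1 - S * u)) * y ^ 2 / u
        + 2 * P1 * x ^ 2 / (u * (1 - S * u))) := by
  obtain ⟨k, hkd⟩ : ∃ k, k = 1 - S * u := ⟨_, rfl⟩
  rw [← hkd] at hk hμ ⊢
  have hS : S = (1 - k) / u := by rw [hkd]; field_simp; ring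
  have hk' : k ≠ 0 := hk.ne'
  have hμ' : μ = (S1 * m ^ 2 + S * ((m ^ 2 + l ^ 2) / u) + 2 * P1 * C ^ 2) / k := by
    rw [eq_div_iff hk']; exact hμ
  rw [hμ', hS]
  field_simp
  ring

theorem nat_nonneg (u m l y x a b S S1 P1 P2 C μ : ℝ) (hu : 0 < u) (hk : 0 < 1 - S * u)
    (hμ : μ * (1 - S * u) = S1 * m ^ 2 + S * ((m ^ 2 + l ^ 2) / u) + 2 * P1 * C ^ 2)
    (h1 : 0 ≤ P1) (h2 : 0 ≤ P1 + 2 * u * P2) (h3 : 0 ≤ S + u * S1) :
    0 ≤ (a ^ 2 + b ^ 2) / u + μ * ((y ^ 2 + x ^ 2) / u) + μ * S1 * u * y ^ 2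
      - 2 * S1 * m * y * ((m * y + l * x) / u + a) + S1 * y ^ 2 * ((m ^ 2 + l ^ 2) / u)
      - S * ((m * y + l * x) / u + a) ^ 2 + 4 * P2 * C ^ 2 * y ^ 2 := by
  rw [nat_id u m l y x a b S S1 P1 P2 C μ hu hk hμ]
  have hk' : 0 < (1 - S * u) * u := mul_pos hk hu
  have e1 : 0 ≤ ((1 - S * u) * a - S * l * x - m * (u * S1 + S) * y) ^ 2 / ((1 - S * u) * u) :=
    div_nonneg (sq_nonneg _) hk'.le
  have e2 : 0 ≤ b ^ 2 / u := by positivity
  have e3 : 0 ≤ (S + u * S1) / (1 - S * u) * ((m * x - l * y) / u) ^ 2 := by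
    apply mul_nonneg (div_nonneg h3 hk.le) (sq_nonneg _)
  have e4 : 0 ≤ C ^ 2 * ((2 * (P1 + 2 * u * P2) + 2 * u * P1 * (S + u * S1) / (1 - S * u)) * y ^ 2 / u
        + 2 * P1 * x ^ 2 / (u * (1 - S * u))) := by
    apply mul_nonneg (sq_nonneg _)
    apply add_nonneg
    · apply div_nonneg _ hu.le
      apply mul_nonneg _ (sq_nonneg _)
      apply add_nonneg (by linarith)
      apply div_nonneg _ hk.le
      apply mul_nonneg _ h3
      positivity
    · apply div_nonneg _ (by positivity)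
      positivity
  linarith

/-- The derivative of the natural certificate in the hyperbolic part. -/
noncomputable def hN (u m l y x a b vt th : ℝ) : ℝ :=
  (a ^ 2 + b ^ 2) / u
      + ((1 + u) * th ^ 2 + (m ^ 2 + l ^ 2) / u - m ^ 2 / (1 + u)) * ((y ^ 2 + x ^ 2) / u)
      - ((1 + u) * th ^ 2 + (m ^ 2 + l ^ 2) / u - m ^ 2 / (1 + u)) * (1 / (1 + u) ^ 2) * u * y ^ 2
      + 2 * (1 / (1 + u) ^ 2) * m * y * ((m * y + l * x) / u + a)
      - (1 / (1 + u) ^ 2) * y ^ 2 * ((m ^ 2 + l ^ 2) / u)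
      - 1 / (1 + u) * ((m * y + l * x) / u + a) ^ 2
      - 4 * (1 / (1 + u) ^ 3) * ((1 + u) * th) ^ 2 * y ^ 2
      + ((1 + u) * vt + 2 * y * th) ^ 2 / (1 + u)

/-- The derivative of the natural correction in the hyperbolic part. -/
noncomputable def hW (u m l y x a q vt th : ℝ) : ℝ :=
  ((m ^ 2 + l ^ 2) / u
          + ((1 + u) * th ^ 2 + (m ^ 2 + l ^ 2) / u - m ^ 2 / (1 + u)) * u) * q ^ 2
        + 2 * m * q * vt - 2 * ((m * y + l * x) / u + a) * th * q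
        + 4 * m * th / (1 + u) * y * q - 2 * y * th * vt

/-- The hyperbolic norm of `Y`. -/
noncomputable def hY (u y x : ℝ) : ℝ := y ^ 2 / (u * (1 + u)) + x ^ 2 / u

/-- The derivative of the covariant certificate in the hyperbolic part. -/
theorem cov_id (u m l y x a b q vt th : ℝ) (hu : 0 < u) :
    hN u m l y x a b vt th + hW u m l y x a q vt th
    = ((1 + u) * vt + m * q + th * y) ^ 2 / (1 + u)
      + (a - l * x - m * y / (1 + u) - th * q * u * (1 + u)) ^ 2 / ((1 + u) * u) + b ^ 2 / u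
      + (((1 + u) * q ^ 2 + hY u y x) * ((1 + u) * th ^ 2 + hY u m l)
        - ((1 + u) * q * th + (m * y + l * x) / u - m * y / (1 + u)) ^ 2) := by
  have h1 : (1 + u) ≠ 0 := by positivity
  unfold hN hW hY
  field_simp
  ring

theorem hY_nonneg {u : ℝ} (hu : 0 < u) (y x : ℝ) : 0 ≤ hY u y x := by
  unfold hY; positivity

theorem cov_ge (u m l y x a b q vt th : ℝ) (hu : 0 < u)
    (hort : (1 + u) * q * th + (m * y + l * x) / u - m * y / (1 + u) = 0) :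
    (1 + u) * th ^ 2 * hY u y x ≤ hN u m l y x a b vt th + hW u m l y x a q vt th := by
  rw [cov_id u m l y x a b q vt th hu, hort]
  have e1 : 0 ≤ ((1 + u) * vt + m * q + th * y) ^ 2 / (1 + u) := by positivity
  have e2 : 0 ≤ (a - l * x - m * y / (1 + u) - th * q * u * (1 + u)) ^ 2 / ((1 + u) * u) := by
    positivity
  have e3 : 0 ≤ b ^ 2 / u := by positivity
  have e6 : 0 ≤ (1 + u) * q ^ 2 := by positivity
  have e7 : 0 ≤ (1 + u) * th ^ 2 := by positivity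
  have e8 := hY_nonneg hu y x
  have e9 := hY_nonneg hu m l
  have e10 : ((1 + u) * q ^ 2 + hY u y x) * ((1 + u) * th ^ 2 + hY u m l)
      = (1 + u) * th ^ 2 * hY u y x + ((1 + u) * q ^ 2 * ((1 + u) * th ^ 2)
        + (1 + u) * q ^ 2 * hY u m l + hY u y x * hY u m l) := by ring
  rw [e10]
  have e11 := mul_nonneg e6 e7
  have e12 := mul_nonneg e6 e9
  have e13 := mul_nonneg e8 e9
  linarith

theorem nat_ge (u m l y x a b vt th : ℝ) (hu : 0 < u) :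
    (1 + u) * th ^ 2 * hY u y x * (1 - 3 * u / (1 + u)) ≤ hN u m l y x a b vt th := by
  have hk : 0 < 1 - 1 / (1 + u) * u := by
    have : 1 - 1 / (1 + u) * u = 1 / (1 + u) := by field_simp; ring
    rw [this]; positivity
  have hid := nat_id u m l y x a b (1 / (1 + u)) (-(1 / (1 + u) ^ 2)) (1 / (2 * (1 + u) ^ 2))
    (-(1 / (1 + u) ^ 3)) ((1 + u) * th)
    ((1 + u) * th ^ 2 + (m ^ 2 + l ^ 2) / u - m ^ 2 / (1 + u)) hu hk (by field_simp; ring)
  have hN2 : hN u m l y x a b vt th = ((a ^ 2 + b ^ 2) / u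
      + ((1 + u) * th ^ 2 + (m ^ 2 + l ^ 2) / u - m ^ 2 / (1 + u))
      * ((y ^ 2 + x ^ 2) / u) + ((1 + u) * th ^ 2 + (m ^ 2 + l ^ 2) / u - m ^ 2 / (1 + u))
        * (-(1 / (1 + u) ^ 2)) * u * y ^ 2
    - 2 * (-(1 / (1 + u) ^ 2)) * m * y * ((m * y + l * x) / u + a)
      + (-(1 / (1 + u) ^ 2)) * y ^ 2 * ((m ^ 2 + l ^ 2) / u)
    - (1 / (1 + u)) * ((m * y + l * x) / u + a) ^ 2
      + 4 * (-(1 / (1 + u) ^ 3)) * ((1 + u) * th) ^ 2 * y ^ 2)
      + ((1 + u) * vt + 2 * y * th) ^ 2 / (1 + u) := by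
    unfold hN; ring
  rw [hN2, hid]
  have e0 : 0 ≤ ((1 + u) * vt + 2 * y * th) ^ 2 / (1 + u) := by positivity
  have e1 : 0 ≤ ((1 - 1 / (1 + u) * u) * a - 1 / (1 + u) * l * x
      - m * (u * (-(1 / (1 + u) ^ 2)) + 1 / (1 + u)) * y) ^ 2
        / ((1 - 1 / (1 + u) * u) * u) := div_nonneg (sq_nonneg _) (mul_pos hk hu).le
  have e2 : 0 ≤ b ^ 2 / u := by positivity
  have hkk : 1 - 1 / (1 + u) * u = 1 / (1 + u) := by field_simp; ring
  have e3 : 0 ≤ (1 / (1 + u) + u * (-(1 / (1 + u) ^ 2))) / (1 - 1 / (1 + u) * u)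
      * ((m * x - l * y) / u) ^ 2 := by
    have : (1 / (1 + u) + u * (-(1 / (1 + u) ^ 2))) = 1 / (1 + u) ^ 2 := by field_simp; ring
    rw [this, hkk]
    positivity
  have e4 : (1 + u) * th ^ 2 * hY u y x * (1 - 3 * u / (1 + u)) ≤
      ((1 + u) * th) ^ 2 * ((2 * (1 / (2 * (1 + u) ^ 2) + 2 * u * (-(1 / (1 + u) ^ 3)))
        + 2 * u * (1 / (2 * (1 + u) ^ 2)) * (1 / (1 + u) + u * (-(1 / (1 + u) ^ 2)))
          / (1 - 1 / (1 + u) * u)) * y ^ 2 / u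
      + 2 * (1 / (2 * (1 + u) ^ 2)) * x ^ 2 / (u * (1 - 1 / (1 + u) * u))) := by
    rw [hkk, hY]
    have : ((1 + u) * th) ^ 2 * ((2 * (1 / (2 * (1 + u) ^ 2) + 2 * u * (-(1 / (1 + u) ^ 3)))
        + 2 * u * (1 / (2 * (1 + u) ^ 2)) * (1 / (1 + u) + u * (-(1 / (1 + u) ^ 2)))
          / (1 / (1 + u))) * y ^ 2 / u
      + 2 * (1 / (2 * (1 + u) ^ 2)) * x ^ 2 / (u * (1 / (1 + u))))
      - (1 + u) * th ^ 2 * (y ^ 2 / (u * (1 + u)) + x ^ 2 / u) * (1 - 3 * u / (1 + u))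
      = 3 * th ^ 2 * x ^ 2 := by
      field_simp
      ring
    have h3 : 0 ≤ 3 * th ^ 2 * x ^ 2 := by positivity
    linarith
  linarith

/-- The derivative of the certificate in the hyperbolic part is nonnegative. -/
theorem hyp_nonneg (u m l y x a b q vt th g g' : ℝ) (hu : 0 < u) (hg0 : 0 ≤ g) (hg1 : g ≤ 1)
    (hg' : g' ≤ 0) (hgg : 3 * g * u / (1 + u) - 2 * u * g' ≤ 1)
    (hort : (1 + u) * q * th + (m * y + l * x) / u - m * y / (1 + u) = 0) :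
    0 ≤ hN u m l y x a b vt th + (1 - g) * hW u m l y x a q vt th
      - g' * (2 * m) * (m * q ^ 2 - 2 * y * th * q) := by
  have hNW := cov_ge u m l y x a b q vt th hu hort
  have hNat := nat_ge u m l y x a b vt th hu
  have hM0 : 0 ≤ (1 + u) * th ^ 2 * hY u y x := by
    have := hY_nonneg hu y x
    positivity
  -- the cut-off part
  have hcut : 2 * u * g' * ((1 + u) * th ^ 2 * hY u y x) ≤
      - (g' * (2 * m) * (m * q ^ 2 - 2 * y * th * q)) := by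
    have : - (g' * (2 * m) * (m * q ^ 2 - 2 * y * th * q))
        - 2 * u * g' * ((1 + u) * th ^ 2 * hY u y x)
        = (-g') * (2 * ((m * q - y * th) ^ 2 + th ^ 2 * (1 + u) * x ^ 2)) := by
      unfold hY; field_simp; ring
    have h2 : 0 ≤ (-g') * (2 * ((m * q - y * th) ^ 2 + th ^ 2 * (1 + u) * x ^ 2)) := by
      apply mul_nonneg (by linarith); positivity
    linarith
  generalize hN u m l y x a b vt th = N at *
  generalize hW u m l y x a q vt th = W at *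
  generalize (1 + u) * th ^ 2 * hY u y x = M at *
  have e1 : (1 - g) * M ≤ (1 - g) * (N + W) := mul_le_mul_of_nonneg_left hNW (by linarith)
  have e2 : g * (M * (1 - 3 * u / (1 + u))) ≤ g * N := mul_le_mul_of_nonneg_left hNat hg0
  have e3 : 0 ≤ M * (1 - (3 * g * u / (1 + u) - 2 * u * g')) := mul_nonneg hM0 (by linarith)
  have e4 : M * (1 - (3 * g * u / (1 + u) - 2 * u * g')) =
      (1 - g) * M + g * (M * (1 - 3 * u / (1 + u))) + 2 * u * g' * M := by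
    field_simp; ring
  have e5 : (1 - g) * (N + W) + g * N = N + (1 - g) * W := by ring
  linarith

/-- The derivative of the natural certificate, before using the equations. -/
noncomputable def dnat (u m l y x a b S S1 S2 μ ν vt δ : ℝ) : ℝ :=
  (a ^ 2 + b ^ 2) / u + (μ * ((y ^ 2 + x ^ 2) / u) + ν * y)
    - (S1 * (2 * m) * y * ((m * y + l * x) / u + a)
      + S * ((m * y + l * x) / u + a) ^ 2
      + S * y * (μ * y + 2 * ((m * a + l * b) / u) + (μ * y + ν * u)))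
    - (S2 * (2 * m) * m * y ^ 2 + S1 * ((m ^ 2 + l ^ 2) / u + μ * u) * y ^ 2
      + S1 * m * (2 * y * ((m * y + l * x) / u + a)))
    + vt * δ

theorem dnat_eq (u m l y x a b S S1 S2 P1 P2 C δ μ ν F vt th : ℝ) (hF : 0 < F)
    (hν : ν * (1 - S * u) - μ * (S1 * u + S) * (2 * y) = 2 * S2 * y * m ^ 2
      + 2 * S1 * m * ((m * y + l * x) / u + a) + 2 * S1 * y * ((m ^ 2 + l ^ 2) / u)
      + 2 * S * ((m * a + l * b) / u) + 4 * P2 * y * C ^ 2 + 4 * P1 * C * δ)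
    (hδ : F * vt + 4 * P1 * F ^ 2 * y * th = δ) (hC : F * th = C) :
    dnat u m l y x a b S S1 S2 μ ν vt δ =
      (a ^ 2 + b ^ 2) / u + μ * ((y ^ 2 + x ^ 2) / u) + μ * S1 * u * y ^ 2
      - 2 * S1 * m * y * ((m * y + l * x) / u + a) + S1 * y ^ 2 * ((m ^ 2 + l ^ 2) / u)
      - S * ((m * y + l * x) / u + a) ^ 2 + 4 * P2 * C ^ 2 * y ^ 2 + δ ^ 2 / F := by
  have h1 : vt * δ = δ ^ 2 / F - 4 * P1 * C * y * δ := by
    subst hC
    have : vt = δ / F - 4 * P1 * F * y * th := by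
      rw [← hδ]; field_simp; ring
    rw [this]; field_simp
  unfold dnat
  rw [h1]
  linear_combination y * hν

theorem hyp_mu (u m l th C μ : ℝ) (hu : 0 < u) (e1 : (1 + u) * th = C)
    (e5 : μ * (1 - 1 / (1 + u) * u) = -(1 / (1 + u) ^ 2) * m ^ 2
      + 1 / (1 + u) * ((m * m + l * l) / u) + 2 * (1 / (2 * (1 + u) ^ 2)) * C ^ 2) :
    μ = (1 + u) * th ^ 2 + (m ^ 2 + l ^ 2) / u - m ^ 2 / (1 + u) := by
  have hk : 1 - 1 / (1 + u) * u = 1 / (1 + u) := by field_simp; ring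
  rw [hk, ← e1] at e5
  have h1 : μ = (1 + u) * (μ * (1 / (1 + u))) := by field_simp
  rw [h1, e5]
  field_simp
  ring

theorem hyp_dnat (u m l y x a b th vt C δ μ ν S2 : ℝ) (hu : 0 < u) (e1 : (1 + u) * th = C)
    (e2 : (1 + u) * vt + 4 * (1 / (2 * (1 + u) ^ 2)) * (1 + u) ^ 2 * y * th = δ)
    (e5 : μ * (1 - 1 / (1 + u) * u) = -(1 / (1 + u) ^ 2) * m ^ 2
      + 1 / (1 + u) * ((m * m + l * l) / u) + 2 * (1 / (2 * (1 + u) ^ 2)) * C ^ 2)
    (e6 : ν * (1 - 1 / (1 + u) * u) - μ * (-(1 / (1 + u) ^ 2) * u + 1 / (1 + u)) * (2 * y)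
      = 2 * S2 * y * m ^ 2
      + 2 * (-(1 / (1 + u) ^ 2)) * m * ((m * y + l * x) / u + a)
      + 2 * (-(1 / (1 + u) ^ 2)) * y * ((m * m + l * l) / u)
      + 2 * (1 / (1 + u)) * ((m * a + l * b) / u) + 4 * (-(1 / (1 + u) ^ 3)) * y * C ^ 2
      + 4 * (1 / (2 * (1 + u) ^ 2)) * C * δ) :
    dnat u m l y x a b (1 / (1 + u)) (-(1 / (1 + u) ^ 2)) S2 μ ν vt δ
      = hN u m l y x a b vt th := by
  have hμ := hyp_mu u m l th C μ hu e1 e5
  have hF : 0 < 1 + u := by linarith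
  rw [dnat_eq (P1 := 1 / (2 * (1 + u) ^ 2)) (P2 := -(1 / (1 + u) ^ 3)) (C := C) (F := 1 + u)
    (th := th) (hF := hF)]
  · have hδ : δ = (1 + u) * vt + 2 * y * th := by
      rw [← e2]; field_simp; ring
    rw [hμ, hδ, ← e1]
    unfold hN
    ring
  · linear_combination e6
  · exact e2
  · exact e1

/-- The bound for the cut-off function. -/
theorem cut_bound (X r : ℝ) (hX0 : 0 ≤ X) (hX1 : X ≤ 1) (hr : r = 1 / 1000 + X * (31 / 250)) :
    3 * r ^ 2 + r * (6 * X * (1 - X)) * (250 / 31) ≤ 1 := by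
  subst hr
  have h1 : 0 ≤ (X - 2 / 3) ^ 2 * (X + 1 / 3) := by positivity
  have h2 : X ^ 2 ≤ 1 := by nlinarith
  nlinarith [sq_nonneg (X - 1 / 2), mul_nonneg hX0 (by linarith : (0:ℝ) ≤ 1 - X)]

end Pool.Agent.Helper79.NC.RadAlg
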