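import Pool.Agent.Helper79.NC.Spec2
import Pool.Agent.Helper39.NC.RadAlg

/-!
# Calculus in the rotationally symmetric part of the tube
-/

set_option maxSynthPendingDepth 3

namespace Pool.Agent.Helper79.NC.Rad39

open scoped ContDiff Topology
open Set Filter Complex

theorem hasDerivAt_dot {a b : ℝ → ℂ} {a' b' : ℂ} {t : ℝ} (ha : HasDerivAt a a' t)
    (hb : HasDerivAt b b' t) :
    HasDerivAt (fun s => dot (a s) (b s)) (dot a' (b t) + dot (a t) b') t := by
  have ha1 : HasDerivAt (fun s => (a s).re) a'.re t := reCLM.hasFDerivAt.comp_hasDerivAt t ha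
  have ha2 : HasDerivAt (fun s => (a s).im) a'.im t := imCLM.hasFDerivAt.comp_hasDerivAt t ha
  have hb1 : HasDerivAt (fun s => (b s).re) b'.re t := reCLM.hasFDerivAt.comp_hasDerivAt t hb
  have hb2 : HasDerivAt (fun s => (b s).im) b'.im t := imCLM.hasFDerivAt.comp_hasDerivAt t hb
  refine ((ha1.mul hb1).add (ha2.mul hb2)).congr_deriv ?_
  simp only [dot]; ring

theorem dot_comm (a b : ℂ) : dot a b = dot b a := by simp only [dot]; ring

theorem dot_self (a : ℂ) : dot a a = normSq a := by simp only [dot, normSq_apply]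

theorem hasDerivAt_normSq {a : ℝ → ℂ} {a' : ℂ} {t : ℝ} (ha : HasDerivAt a a' t) :
    HasDerivAt (fun s => normSq (a s)) (2 * dot (a t) a') t := by
  have h := hasDerivAt_dot ha ha
  simp only [dot_self] at h
  refine h.congr_deriv ?_
  rw [dot_comm a']; ring

theorem hasDerivAt_fst {c : ℝ → E3} {c' : E3} {t : ℝ} (hc : HasDerivAt c c' t) :
    HasDerivAt (fun s => (c s).1) c'.1 t :=
  (ContinuousLinearMap.fst ℝ ℂ ℝ).hasFDerivAt.comp_hasDerivAt t hc

theorem hasDerivAt_snd {c : ℝ → E3} {c' : E3} {t : ℝ} (hc : HasDerivAt c c' t) :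
    HasDerivAt (fun s => (c s).2) c'.2 t :=
  (ContinuousLinearMap.snd ℝ ℂ ℝ).hasFDerivAt.comp_hasDerivAt t hc

theorem dot_eq {w : ℂ} (hw : normSq w ≠ 0) (v Y : ℂ) :
    dot v Y = (dot w v * dot w Y + crs w v * crs w Y) / normSq w := by
  rw [eq_div_iff hw]
  simp only [dot, crs, normSq_apply]
  ring

/-- The derivative of a rotationally symmetric function. -/
theorem fderiv_radial {Φ : ℂ → ℝ} {P : ℝ → ℝ} {u0 : ℝ} {w : ℂ} (hΦ : DifferentiableAt ℝ Φ w)
    (hP : DifferentiableAt ℝ P (normSq w)) (hw : u0 < normSq w)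
    (heq : ∀ w, u0 < normSq w → Φ w = P (normSq w)) (e : ℂ) :
    fderiv ℝ Φ w e = deriv P (normSq w) * (2 * dot w e) := by
  have hline : HasDerivAt (fun s : ℝ => w + s • e) e 0 := by
    simpa using ((hasDerivAt_id (0 : ℝ)).smul_const e).const_add w
  have hw0 : w + (0 : ℝ) • e = w := by simp
  have h1 : HasDerivAt (fun s : ℝ => Φ (w + s • e)) (fderiv ℝ Φ w e) 0 := by
    have : HasFDerivAt Φ (fderiv ℝ Φ w) (w + (0 : ℝ) • e) := by rw [hw0]; exact hΦ.hasFDerivAt
    exact this.comp_hasDerivAt (0 : ℝ) hline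
  have h2 : HasDerivAt (fun s : ℝ => normSq (w + s • e)) (2 * dot w e) 0 := by
    have := hasDerivAt_normSq hline
    simpa using this
  have h3 : HasDerivAt (fun s : ℝ => P (normSq (w + s • e)))
      (deriv P (normSq w) * (2 * dot w e)) 0 := by
    have : HasDerivAt P (deriv P (normSq w)) (normSq (w + (0 : ℝ) • e)) := by
      rw [hw0]; exact hP.hasDerivAt
    exact this.comp (0 : ℝ) h2
  have hev : ∀ᶠ s : ℝ in 𝓝 0, u0 < normSq (w + s • e) := by
    have : ContinuousAt (fun s : ℝ => normSq (w + s • e)) 0 := h2.continuousAt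
    apply this.eventually_const_lt
    simpa using hw
  have h4 : HasDerivAt (fun s : ℝ => Φ (w + s • e)) (deriv P (normSq w) * (2 * dot w e)) 0 :=
    h3.congr_of_eventuallyEq (hev.mono fun s hs => heq _ hs)
  exact h1.unique h4

theorem F_pos (T : TubeData) (w : ℂ) : 0 < T.F w := by
  unfold TubeData.F
  have := T.κ_pos w
  positivity

theorem hasFDerivAt_F (T : TubeData) (w : ℂ) :
    HasFDerivAt T.F ((2 * (T.F w) ^ 2) • fderiv ℝ T.Φ w) w := by
  have h0 := T.κ_pos w
  have hd : HasDerivAt (fun x : ℝ => 1 / (T.κ - 2 * x)) (2 * (T.F w) ^ 2) (T.Φ w) := by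
    have h1 : HasDerivAt (fun x : ℝ => T.κ - 2 * x) (-2) (T.Φ w) := by
      simpa using ((hasDerivAt_id (T.Φ w)).const_mul (2 : ℝ)).const_sub T.κ
    have h2 := h1.inv h0.ne'
    have h3 : HasDerivAt (fun x : ℝ => 1 / (T.κ - 2 * x)) (-(-2) / (T.κ - 2 * T.Φ w) ^ 2)
        (T.Φ w) := by
      refine h2.congr_of_eventuallyEq (Eventually.of_forall fun x => ?_)
      simp
    convert h3 using 1
    unfold TubeData.F
    field_simp
  have hΦ : HasFDerivAt T.Φ (fderiv ℝ T.Φ w) w :=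
    (T.hΦ.differentiable (by simp) w).hasFDerivAt
  exact hd.comp_hasFDerivAt w hΦ

theorem fderiv_F_radial (T : TubeData) {w : ℂ} (hw : T.u0 < normSq w) (e : ℂ) :
    fderiv ℝ T.F w e = 4 * deriv T.P (normSq w) * (T.F w) ^ 2 * dot w e := by
  have hP : DifferentiableAt ℝ T.P (normSq w) :=
    (T.hP.contDiffAt (Ioi_mem_nhds hw)).differentiableAt (by simp)
  rw [(hasFDerivAt_F T w).fderiv]
  simp only [smul_apply, smul_eq_mul]
  rw [fderiv_radial (T.hΦ.differentiable (by simp) w) hP hw T.Φ_eq e]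
  ring

theorem fderiv_σ_radial (T : TubeData) {w : ℂ} (hw : T.u0 < normSq w) (e : ℂ) :
    fderiv ℝ T.σ w e = deriv T.S (normSq w) * (2 * dot w e) := by
  have hS : DifferentiableAt ℝ T.S (normSq w) :=
    (T.hS.contDiffAt (Ioi_mem_nhds hw)).differentiableAt (by simp)
  exact fderiv_radial (T.hσ.differentiable (by simp) w) hS hw T.σ_eq e

/-- The derivative of `g(J, J)`. -/
theorem hasDerivAt_gJJ (T : TubeData) {c J : ℝ → E3} {c' J' : E3} {t : ℝ}
    (hc : HasDerivAt c c' t) (hJ : HasDerivAt J J' t) :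
    HasDerivAt (fun τ => tubeMetric T.F T.σ (c τ) (J τ) (J τ))
      (fderiv ℝ T.F (c t).1 c'.1 * (J t).2 ^ 2 + T.F (c t).1 * (2 * (J t).2 * J'.2)
        + 2 * dot (J t).1 J'.1
        - (fderiv ℝ T.σ (c t).1 c'.1 * dot (c t).1 (J t).1 ^ 2
          + T.σ (c t).1 * (2 * dot (c t).1 (J t).1
            * (dot c'.1 (J t).1 + dot (c t).1 J'.1)))) t := by
  have hw := hasDerivAt_fst hc
  have hY := hasDerivAt_fst hJ
  have hq := hasDerivAt_snd hJ
  have hF : HasDerivAt (fun τ => T.F (c τ).1) (fderiv ℝ T.F (c t).1 c'.1) t :=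
    HasFDerivAt.comp_hasDerivAt (f := fun τ => (c τ).1) t
      (hasFDerivAt_F T (c t).1).differentiableAt.hasFDerivAt hw
  have hσ : HasDerivAt (fun τ => T.σ (c τ).1) (fderiv ℝ T.σ (c t).1 c'.1) t :=
    HasFDerivAt.comp_hasDerivAt (f := fun τ => (c τ).1) t
      (T.hσ.differentiable (by simp) (c t).1).hasFDerivAt hw
  have hy := hasDerivAt_dot hw hY
  have hYY := hasDerivAt_dot hY hY
  have h := ((hF.mul (hq.pow 2)).add hYY).sub (hσ.mul (hy.pow 2))
  have heq : (fun τ => tubeMetric T.F T.σ (c τ) (J τ) (J τ)) =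
      fun τ => (T.F (c τ).1 * (J τ).2 ^ 2 + dot (J τ).1 (J τ).1)
        - T.σ (c τ).1 * dot (c τ).1 (J τ).1 ^ 2 := by
    funext τ
    rw [tubeMetric_apply]; ring
  rw [heq]
  refine HasDerivAt.congr_deriv h ?_
  rw [dot_comm J'.1]
  simp only [Pi.pow_apply, Nat.cast_ofNat, Nat.add_one_sub_one, pow_one]
  ring

theorem ss_of_one_le {x : ℝ} (hx : 1 ≤ x) : ss x = 0 := by
  unfold ss
  rw [if_neg (by linarith), if_pos hx]

theorem ss_of_nonpos {x : ℝ} (hx : x ≤ 0) : ss x = 1 := by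
  unfold ss
  rw [if_pos hx]

theorem ss_nonneg (x : ℝ) : 0 ≤ ss x := by
  unfold ss
  split_ifs with h1 h2
  · norm_num
  · exact le_refl _
  · push Not at h1 h2
    positivity

theorem ss_le_one (x : ℝ) : ss x ≤ 1 := by
  unfold ss
  split_ifs with h1 h2
  · exact le_refl _
  · norm_num
  · push Not at h1 h2
    nlinarith [mul_nonneg (sq_nonneg x) (by linarith : (0:ℝ) ≤ 3 - 2 * x)]

/-- The correction term in the rotationally symmetric part. -/
theorem corr_radial (T : TubeData) {x : E3} (hx : T.u2 < normSq x.1) (ξ j : E3) :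
    corr T x ξ j = gauge (normSq x.1) * (2 * deriv T.P (normSq x.1) * (T.F x.1) ^ 2
      * (dot x.1 ξ.1 * j.2 ^ 2 - 2 * dot x.1 j.1 * ξ.2 * j.2)) := by
  have h0 : T.u0 < normSq x.1 := by linarith [T.u01, T.u12]
  have h1 : ss ((normSq x.1 - T.u1) / (T.u2 - T.u1)) = 0 := by
    apply ss_of_one_le
    rw [one_le_div (by linarith [T.u12])]
    linarith
  unfold corr
  rw [h1, fderiv_F_radial T h0, fderiv_F_radial T h0]
  ring

theorem gauge_nonneg (u : ℝ) : 0 ≤ gauge u := ss_nonneg _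
theorem gauge_le_one (u : ℝ) : gauge u ≤ 1 := ss_le_one _

/-- The local bound of the correction term. -/
theorem corr_bound (T : TubeData) {c J : ℝ → E3} {t₀ : ℝ} (hc : ContDiff ℝ ∞ c)
    (hu : T.u2 < normSq (c t₀).1) :
    ∃ K : ℝ, ∀ᶠ t in 𝓝 t₀, |corr T (c t) (deriv c t) (J t)| ≤ K * ‖J t‖ ^ 2 := by
  have h0 : T.u0 < normSq (c t₀).1 := by linarith [T.u01, T.u12]
  have hcc : Continuous c := hc.continuous
  have hcd : Continuous (deriv c) := hc.continuous_deriv (by simp)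
  have hn : Continuous (fun t => normSq (c t).1) := continuous_normSq.comp (continuous_fst.comp hcc)
  have hP' : ContinuousAt (deriv T.P) (normSq (c t₀).1) := by
    have := T.hP.deriv_of_isOpen isOpen_Ioi (m := ∞) (by simp)
    exact (this.contDiffAt (Ioi_mem_nhds h0)).continuousAt
  have hF : Continuous T.F := by
    rw [continuous_iff_continuousAt]
    intro w; exact (hasFDerivAt_F T w).continuousAt
  have hcont : ContinuousAt (fun t => |2 * deriv T.P (normSq (c t).1) * (T.F (c t).1) ^ 2|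
      * (2 * ‖(c t).1‖ * ‖(deriv c t).1‖ + 4 * ‖(c t).1‖ * |(deriv c t).2|)) t₀ := by
    apply ContinuousAt.mul
    · apply ContinuousAt.abs
      apply ContinuousAt.mul
      · apply ContinuousAt.mul continuousAt_const
        exact ContinuousAt.comp (f := fun t => normSq (c t).1) (g := deriv T.P) hP' hn.continuousAt
      · exact ((hF.comp (continuous_fst.comp hcc)).pow 2).continuousAt
    · apply Continuous.continuousAt
      fun_prop
  refine ⟨|2 * deriv T.P (normSq (c t₀).1) * (T.F (c t₀).1) ^ 2|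
      * (2 * ‖(c t₀).1‖ * ‖(deriv c t₀).1‖ + 4 * ‖(c t₀).1‖ * |(deriv c t₀).2|) + 1, ?_⟩
  have hev1 : ∀ᶠ t in 𝓝 t₀, T.u2 < normSq (c t).1 := hn.continuousAt.eventually_const_lt hu
  have hev2 := hcont.eventually_lt_const (lt_add_one _)
  filter_upwards [hev1, hev2] with t h1 h2
  rw [corr_radial T h1, abs_mul, abs_mul]
  have hdot : ∀ a b : ℂ, |dot a b| ≤ 2 * (‖a‖ * ‖b‖) := by
    intro a b
    unfold dot
    have e1 := abs_re_le_norm a
    have e2 := abs_re_le_norm b
    have e3 := abs_im_le_norm a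
    have e4 := abs_im_le_norm b
    calc |a.re * b.re + a.im * b.im| ≤ |a.re * b.re| + |a.im * b.im| := abs_add_le _ _
      _ = |a.re| * |b.re| + |a.im| * |b.im| := by rw [abs_mul, abs_mul]
      _ ≤ ‖a‖ * ‖b‖ + ‖a‖ * ‖b‖ := by gcongr
      _ = 2 * (‖a‖ * ‖b‖) := by ring
  have hJ1 : ‖(J t).1‖ ≤ ‖J t‖ := norm_fst_le _
  have hJ2 : |(J t).2| ≤ ‖J t‖ := by
    rw [← Real.norm_eq_abs]; exact norm_snd_le _
  have hg : |gauge (normSq (c t).1)| ≤ 1 := by
    rw [abs_of_nonneg (gauge_nonneg _)]; exact gauge_le_one _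
  have hmain : |dot (c t).1 (deriv c t).1 * (J t).2 ^ 2
      - 2 * dot (c t).1 (J t).1 * (deriv c t).2 * (J t).2|
      ≤ (2 * ‖(c t).1‖ * ‖(deriv c t).1‖ + 4 * ‖(c t).1‖ * |(deriv c t).2|) * ‖J t‖ ^ 2 := by
    calc |dot (c t).1 (deriv c t).1 * (J t).2 ^ 2
      - 2 * dot (c t).1 (J t).1 * (deriv c t).2 * (J t).2|
        ≤ |dot (c t).1 (deriv c t).1 * (J t).2 ^ 2|
          + |2 * dot (c t).1 (J t).1 * (deriv c t).2 * (J t).2| := abs_sub _ _
      _ = |dot (c t).1 (deriv c t).1| * |(J t).2| ^ 2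
          + 2 * |dot (c t).1 (J t).1| * |(deriv c t).2| * |(J t).2| := by
          simp only [abs_mul, abs_pow, abs_two]
      _ ≤ (2 * (‖(c t).1‖ * ‖(deriv c t).1‖)) * ‖J t‖ ^ 2
          + 2 * (2 * (‖(c t).1‖ * ‖J t‖)) * |(deriv c t).2| * ‖J t‖ := by
          gcongr
          · exact hdot _ _
          · exact (hdot _ _).trans (by gcongr)
      _ = _ := by ring
  calc |gauge (normSq (c t).1)| * (|2 * deriv T.P (normSq (c t).1) * (T.F (c t).1) ^ 2|
      * |dot (c t).1 (deriv c t).1 * (J t).2 ^ 2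
      - 2 * dot (c t).1 (J t).1 * (deriv c t).2 * (J t).2|)
      ≤ 1 * (|2 * deriv T.P (normSq (c t).1) * (T.F (c t).1) ^ 2| *
        ((2 * ‖(c t).1‖ * ‖(deriv c t).1‖ + 4 * ‖(c t).1‖ * |(deriv c t).2|) * ‖J t‖ ^ 2)) := by
        gcongr
    _ = (|2 * deriv T.P (normSq (c t).1) * (T.F (c t).1) ^ 2| *
        (2 * ‖(c t).1‖ * ‖(deriv c t).1‖ + 4 * ‖(c t).1‖ * |(deriv c t).2|)) * ‖J t‖ ^ 2 := by ring
    _ ≤ _ := by
        apply mul_le_mul_of_nonneg_right h2.le (sq_nonneg _)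

/-- The certificate in the rotationally symmetric part. -/
theorem cert_form (T : TubeData) {c J : ℝ → E3} (hc : ContDiff ℝ ∞ c) (hJ : ContDiff ℝ ∞ J)
    {t : ℝ} (hu : T.u2 < normSq (c t).1) :
    1 / 2 * deriv (fun τ => tubeMetric T.F T.σ (c τ) (J τ) (J τ)) t
        - corr T (c t) (deriv c t) (J t)
    = (dot (J t).1 (deriv J t).1
        - T.S (normSq (c t).1) * dot (c t).1 (J t).1
            * (dot (deriv c t).1 (J t).1 + dot (c t).1 (deriv J t).1)
        - deriv T.S (normSq (c t).1) * dot (c t).1 (deriv c t).1 * dot (c t).1 (J t).1 ^ 2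
        + (J t).2 * (T.F (c t).1 * (deriv J t).2
            + fderiv ℝ T.F (c t).1 (J t).1 * (deriv c t).2))
      + (1 - gauge (normSq (c t).1)) * (2 * deriv T.P (normSq (c t).1) * (T.F (c t).1) ^ 2
          * (dot (c t).1 (deriv c t).1 * (J t).2 ^ 2
            - 2 * dot (c t).1 (J t).1 * (deriv c t).2 * (J t).2)) := by
  have h0 : T.u0 < normSq (c t).1 := by linarith [T.u01, T.u12]
  have hcd : HasDerivAt c (deriv c t) t := (hc.differentiable (by simp) t).hasDerivAt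
  have hJd : HasDerivAt J (deriv J t) t := (hJ.differentiable (by simp) t).hasDerivAt
  rw [(hasDerivAt_gJJ T hcd hJd).deriv, corr_radial T hu, fderiv_F_radial T h0,
    fderiv_F_radial T h0, fderiv_σ_radial T h0, T.σ_eq _ h0]
  ring

end Pool.Agent.Helper79.NC.Rad39
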